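import Mathlib

namespace Pool.Agent.Results.MP_492578_lc.NotFP

open MonoidAlgebra Polynomial

abbrev FA (G : Type) := MonoidAlgebra ℝ (FreeMonoid G)

/-- finitely supported probability distributions on words -/
def IsD {G : Type} (x : FA G) : Prop :=
  (∀ w, 0 ≤ x.coeff w) ∧ x.coeff.sum (fun _ r => r) = 1

theorem isD_single {G : Type} (w : FreeMonoid G) : IsD (single w (1 : ℝ)) := by
  classical
  refine ⟨fun v => ?_, by simp⟩
  rw [coeff_single, Finsupp.single_apply]
  split_ifs <;> norm_num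

theorem isD_convex {G : Type} : Convex ℝ {x : FA G | IsD x} := by
  intro x hx y hy a b ha hb hab
  refine ⟨fun w => ?_, ?_⟩
  · have := hx.1 w
    have := hy.1 w
    simp only [MonoidAlgebra.coeff_add, MonoidAlgebra.coeff_smul, Finsupp.add_apply, Finsupp.smul_apply, smul_eq_mul]
    positivity
  · rw [MonoidAlgebra.coeff_add, MonoidAlgebra.coeff_smul, MonoidAlgebra.coeff_smul,
      Finsupp.sum_add_index' (by simp) (by simp),
      Finsupp.sum_smul_index' (by simp), Finsupp.sum_smul_index' (by simp)]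
    have h1 := hx.2
    have h2 := hy.2
    simp only [Finsupp.sum, smul_eq_mul, ← Finset.mul_sum] at h1 h2 ⊢
    rw [h1, h2]; linarith

theorem isD_ind {G : Type} {P : Set (FA G)} (hP : Convex ℝ P) (h : ∀ w, single w (1 : ℝ) ∈ P)
    {x : FA G} (hx : IsD x) : x ∈ P := by
  have e : x = ∑ w ∈ x.coeff.support, x.coeff w • single w (1 : ℝ) := by
    conv_lhs => rw [← MonoidAlgebra.sum_coeff_single x]
    simp [Finsupp.sum]
  rw [e]
  exact hP.sum_mem (fun w _ => hx.1 w) hx.2 (fun w _ => h w)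

theorem isD_mul {G : Type} {x y : FA G} (hx : IsD x) (hy : IsD y) : IsD (x * y) := by
  refine isD_ind (P := {x | IsD (x * y)})
    (isD_convex.linear_preimage (LinearMap.mulRight ℝ y)) (fun u => ?_) hx
  refine isD_ind (P := {y | IsD (single u (1 : ℝ) * y)})
    (isD_convex.linear_preimage (LinearMap.mulLeft ℝ (single u (1 : ℝ)))) (fun v => ?_) hy
  show IsD (single u (1 : ℝ) * single v (1 : ℝ))
  rw [single_mul_single, one_mul]
  exact isD_single _

/-- the free convex monoid on `G`: distributions on words over `G` -/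
def D (G : Type) := {x : FA G // IsD x}

noncomputable def D.dirac {G : Type} (w : FreeMonoid G) : D G := ⟨single w 1, isD_single w⟩

noncomputable def D.mul {G : Type} (x y : D G) : D G := ⟨x.1 * y.1, isD_mul x.2 y.2⟩

noncomputable def D.conv {G : Type} (t : Set.Icc (0 : ℝ) 1) (x y : D G) : D G :=
  ⟨t.1 • x.1 + (1 - t.1) • y.1,
    isD_convex x.2 y.2 t.2.1 (sub_nonneg.2 t.2.2) (add_sub_cancel _ _)⟩

structure IsCong {G : Type} (r : D G → D G → Prop) : Prop where
  eqv : Equivalence r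
  mul : ∀ x x' y y', r x x' → r y y' → r (x.mul y) (x'.mul y')
  conv : ∀ t x x' y y', r x x' → r y y' → r (D.conv t x y) (D.conv t x' y')

/-- the congruence generated by `R` -/
def Gen {G : Type} (R : Set (D G × D G)) (x y : D G) : Prop :=
  ∀ r, IsCong r → (∀ p ∈ R, r p.1 p.2) → r x y

/-- affine extension of `L` -/
noncomputable def hat {S : Type} (L : FreeMonoid S → ℝ) (μ : D S) : ℝ :=
  μ.1.coeff.sum fun w r => r * L w

/-- the syntactic congruence -/
noncomputable def synSetoid {S : Type} (L : FreeMonoid S → ℝ) : Setoid (D S) where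
  r μ ν := ∀ x y, hat L (((D.dirac x).mul μ).mul (D.dirac y)) =
    hat L (((D.dirac x).mul ν).mul (D.dirac y))
  iseqv := ⟨fun _ _ _ => rfl, fun h x y => (h x y).symm, fun h h' x y => (h x y).trans (h' x y)⟩

/-- `Syn L` is isomorphic, as a convex monoid, to the quotient of the free convex monoid on a
finite set by a finitely generated congruence -/
def SynFP {S : Type} (L : FreeMonoid S → ℝ) : Prop :=
  ∃ (G : Type) (_ : Finite G) (R : Set (D G × D G)) (φ : D G → Quotient (synSetoid L)),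
    R.Finite ∧ Function.Surjective φ ∧ (∀ x y, φ x = φ y ↔ Gen R x y) ∧
    φ (D.dirac 1) = ⟦D.dirac 1⟧ ∧
    ∀ x y μ ν, φ x = ⟦μ⟧ → φ y = ⟦ν⟧ →
      φ (x.mul y) = ⟦μ.mul ν⟧ ∧ ∀ t, φ (D.conv t x y) = ⟦D.conv t μ ν⟧

structure PFA (S : Type) (n : ℕ) where
  init : Fin n → ℝ
  δ : Fin n → S → Fin n → ℝ
  out : Fin n → ℝ
  init_d : (∀ q, 0 ≤ init q) ∧ ∑ q, init q = 1
  δ_d : ∀ q a, (∀ p, 0 ≤ δ q a p) ∧ ∑ p, δ q a p = 1
  out_d : ∀ q, 0 ≤ out q ∧ out q ≤ 1

def PFA.val {S : Type} {n : ℕ} (P : PFA S n) (w : FreeMonoid S) : ℝ :=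
  ∑ q, (w.toList.foldl (fun v a p => ∑ q, v q * P.δ q a p) P.init) q * P.out q

def PFAComputable {S : Type} (L : FreeMonoid S → ℝ) : Prop :=
  ∃ (n : ℕ) (P : PFA S n), ∀ w, P.val w = L w

noncomputable def L0 (S : Type) (w : FreeMonoid S) : ℝ :=
  ((1 / 2) ^ w.length + (1 / 4) ^ w.length) / 2

/-! ### the automaton -/

noncomputable def P0 (S : Type) : PFA S 3 where
  init := ![1 / 2, 1 / 2, 0]
  δ := fun q _ => ![![1 / 2, 0, 1 / 2], ![0, 1 / 4, 3 / 4], ![0, 0, 1]] q
  out := ![1, 1, 0]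
  init_d := ⟨fun q => by fin_cases q <;> simp, by simp [Fin.sum_univ_three]; norm_num⟩
  δ_d := fun q a => by
    refine ⟨fun p => ?_, ?_⟩
    · fin_cases q <;> fin_cases p <;> simp <;> norm_num
    · fin_cases q <;> simp [Fin.sum_univ_three] <;> norm_num
  out_d := fun q => by fin_cases q <;> simp

theorem comp (S : Type) : PFAComputable (L0 S) := by
  refine ⟨3, P0 S, fun w => ?_⟩
  have key : ∀ (l : List S) (v : Fin 3 → ℝ),
      ∑ q, (l.foldl (fun v a p => ∑ q, v q * (P0 S).δ q a p) v) q * (P0 S).out q =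
        v 0 * (1 / 2) ^ l.length + v 1 * (1 / 4) ^ l.length := by
    intro l
    induction l with
    | nil => intro v; simp [P0, Fin.sum_univ_three]
    | cons a l ih =>
      intro v
      rw [List.foldl_cons, ih]
      simp [P0, Fin.sum_univ_three, pow_succ]
      ring
  unfold PFA.val
  rw [key]
  simp only [L0, P0, FreeMonoid.length]
  simp
  ring

/-! ### polynomials -/

def PD (p : ℝ[X]) : Prop := (∀ n, 0 ≤ p.coeff n) ∧ p.eval 1 = 1

def E (p q : ℝ[X]) : Prop := p.eval (1 / 2) = q.eval (1 / 2) ∧ p.eval (1 / 4) = q.eval (1 / 4)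

def bad (N : ℕ) (p : ℝ[X]) : Prop := ∃ i j, i < j ∧ j ≤ i + N ∧ 0 < p.coeff i ∧ 0 < p.coeff j

theorem of_supp {p : ℝ[X]} (hp : PD p) {m : ℕ} (h : ∀ n, n ≠ m → p.coeff n = 0) : p = X ^ m := by
  have e : p = C (p.coeff m) * X ^ m := by
    ext n
    rw [coeff_C_mul_X_pow]
    split_ifs with c
    · rw [c]
    · exact h n c
  have h1 := hp.2
  rw [e] at h1
  simp at h1
  rw [e, h1]; simp

theorem extreme {p : ℝ[X]} (hp : PD p) {m : ℕ} (h : E p (X ^ m)) : p = X ^ m := by
  apply of_supp hp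
  have h1 := hp.2
  obtain ⟨h2, h3⟩ := h
  simp only [eval_pow, eval_X] at h2 h3
  rw [eval_eq_sum_range] at h1 h2 h3
  have h4 : ∑ i ∈ Finset.range (p.natDegree + 1),
      p.coeff i * ((1 / 2 : ℝ) ^ i - (1 / 2) ^ m) ^ 2 = 0 := by
    have : ∀ i : ℕ, p.coeff i * ((1 / 2 : ℝ) ^ i - (1 / 2) ^ m) ^ 2 = p.coeff i * (1 / 4) ^ i
        - 2 * (1 / 2) ^ m * (p.coeff i * (1 / 2) ^ i) + (1 / 4) ^ m * (p.coeff i * 1 ^ i) := by
      intro i
      have a1 : ∀ k : ℕ, (1 / 4 : ℝ) ^ k = ((1 / 2) ^ k) ^ 2 := fun k => by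
        rw [← pow_mul, mul_comm, pow_mul]; norm_num
      rw [a1, a1, one_pow]; ring
    simp only [this, Finset.sum_add_distrib, Finset.sum_sub_distrib, ← Finset.mul_sum]
    rw [h1, h2, h3]
    have a1 : (1 / 4 : ℝ) ^ m = ((1 / 2) ^ m) ^ 2 := by
      rw [← pow_mul, mul_comm, pow_mul]; norm_num
    rw [a1]; ring
  rw [Finset.sum_eq_zero_iff_of_nonneg (fun i _ => mul_nonneg (hp.1 i) (sq_nonneg _))] at h4
  intro n hn
  by_cases c : n ≤ p.natDegree
  · rcases mul_eq_zero.1 (h4 n (Finset.mem_range.2 (by omega))) with h | h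
    · exact h
    · have h5 : (1 / 2 : ℝ) ^ n = (1 / 2) ^ m := by
        have := pow_eq_zero_iff (two_ne_zero) |>.1 h
        linarith
      exact absurd (pow_right_injective₀ (by norm_num) (by norm_num) h5) hn
  · exact coeff_eq_zero_of_natDegree_lt (by omega)

theorem pos_coeff {p : ℝ[X]} (hp : PD p) : ∃ k, 0 < p.coeff k := by
  by_contra hc
  push Not at hc
  have : p = 0 := by ext n; exact le_antisymm (hc n) (hp.1 n)
  have h := hp.2
  rw [this] at h
  simp at h

theorem dich {p : ℝ[X]} (hp : PD p) : (∃ m, p = X ^ m) ∨ ∀ᶠ N in Filter.atTop, bad N p := by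
  obtain ⟨k, hk⟩ := pos_coeff hp
  by_cases h : ∀ n, n ≠ k → p.coeff n = 0
  · exact Or.inl ⟨k, of_supp hp h⟩
  · push Not at h
    obtain ⟨n, h1, h2⟩ := h
    have h3 := lt_of_le_of_ne (hp.1 n) h2.symm
    right
    filter_upwards [Filter.eventually_ge_atTop (n + k)] with N hN
    rcases lt_or_gt_of_ne h1 with c | c
    · exact ⟨n, k, c, by omega, h3, hk⟩
    · exact ⟨k, n, c, by omega, hk, h3⟩

theorem pair {p q : ℝ[X]} (hp : PD p) (hq : PD q) (h : E p q) :
    ∀ᶠ N in Filter.atTop, p = q ∨ (bad N p ∧ bad N q) := by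
  rcases dich hp with ⟨m, rfl⟩ | h1
  · exact Filter.Eventually.of_forall fun _ => Or.inl (extreme hq ⟨h.1.symm, h.2.symm⟩).symm
  · rcases dich hq with ⟨m, rfl⟩ | h2
    · exact Filter.Eventually.of_forall fun _ => Or.inl (extreme hp h)
    · filter_upwards [h1, h2] with N a b using Or.inr ⟨a, b⟩

theorem coeff_mul_pos {p q : ℝ[X]} (hp : PD p) (hq : PD q) {i k : ℕ} (h : 0 < p.coeff i)
    (h' : 0 < q.coeff k) : 0 < (p * q).coeff (i + k) := by
  rw [Polynomial.coeff_mul]
  exact Finset.sum_pos' (fun x _ => mul_nonneg (hp.1 _) (hq.1 _))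
    ⟨(i, k), by simp, mul_pos h h'⟩

theorem bad_mul {N : ℕ} {p q : ℝ[X]} (hp : PD p) (hq : PD q) (h : bad N p ∨ bad N q) :
    bad N (p * q) := by
  rcases h with ⟨i, j, a, b, c, d⟩ | ⟨i, j, a, b, c, d⟩
  · obtain ⟨k, hk⟩ := pos_coeff hq
    exact ⟨i + k, j + k, by omega, by omega, coeff_mul_pos hp hq c hk, coeff_mul_pos hp hq d hk⟩
  · obtain ⟨k, hk⟩ := pos_coeff hp
    exact ⟨k + i, k + j, by omega, by omega, coeff_mul_pos hp hq hk c, coeff_mul_pos hp hq hk d⟩

theorem bad_conv {N : ℕ} {p q : ℝ[X]} (hq : PD q) {a b : ℝ} (ha : 0 < a) (hb : 0 ≤ b)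
    (h : bad N p) : bad N (a • p + b • q) := by
  obtain ⟨i, j, h1, h2, c, d⟩ := h
  have := hq.1 i
  have := hq.1 j
  refine ⟨i, j, h1, h2, ?_, ?_⟩ <;>
    simp only [Polynomial.coeff_add, Polynomial.coeff_smul, smul_eq_mul] <;> positivity

/-- length map -/
noncomputable def len (S : Type) : FA S →ₐ[ℝ] ℝ[X] :=
  MonoidAlgebra.lift ℝ _ _ (FreeMonoid.lift fun _ => X)

theorem len_single {S : Type} (w : FreeMonoid S) : len S (single w 1) = X ^ w.length := by
  rw [len, lift_single, one_smul]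
  induction w using FreeMonoid.inductionOn' with
  | one => simp
  | of_mul a w ih => rw [map_mul, ih]; simp [pow_add]

theorem pd_convex : Convex ℝ {p : ℝ[X] | PD p} := by
  intro x hx y hy a b ha hb hab
  refine ⟨fun n => ?_, ?_⟩
  · have := hx.1 n
    have := hy.1 n
    simp only [Polynomial.coeff_add, Polynomial.coeff_smul, smul_eq_mul]
    positivity
  · simp [hx.2, hy.2, hab]

theorem pd_len {S : Type} (μ : D S) : PD (len S μ.1) := by
  refine isD_ind (P := {x | PD (len S x)}) (pd_convex.linear_preimage (len S).toLinearMap)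
    (fun w => ?_) μ.2
  show PD (len S (single w 1))
  rw [len_single]
  refine ⟨fun n => ?_, by simp⟩
  rw [Polynomial.coeff_X_pow]
  split_ifs <;> norm_num

theorem hat_eq {S : Type} (μ : D S) :
    hat (L0 S) μ = ((len S μ.1).eval (1 / 2) + (len S μ.1).eval (1 / 4)) / 2 := by
  have e : μ.1 = ∑ w ∈ μ.1.coeff.support, μ.1.coeff w • single w (1 : ℝ) := by
    conv_lhs => rw [← MonoidAlgebra.sum_coeff_single μ.1]
    simp [Finsupp.sum]
  conv_rhs => rw [e]
  simp only [map_sum, map_smul, len_single, eval_finsetSum, eval_smul, eval_pow, eval_X,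
    smul_eq_mul, hat, Finsupp.sum, L0]
  rw [← Finset.sum_add_distrib, Finset.sum_div]
  exact Finset.sum_congr rfl fun w _ => by ring

theorem syn_iff {S : Type} (a : S) (μ ν : D S) :
    (⟦μ⟧ : Quotient (synSetoid (L0 S))) = ⟦ν⟧ ↔ E (len S μ.1) (len S ν.1) := by
  rw [Quotient.eq]
  show (∀ x y, _) ↔ _
  simp only [hat_eq, D.mul, D.dirac, map_mul, len_single, eval_mul, eval_pow, eval_X]
  constructor
  · intro h
    have h1 := h 1 1
    have h2 := h (FreeMonoid.of a) 1
    simp only [FreeMonoid.length_one, FreeMonoid.length_of, pow_zero, pow_one] at h1 h2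
    constructor <;> linarith
  · intro h x y
    rw [h.1, h.2]

theorem not_fp (S : Type) (a : S) : ¬ SynFP (L0 S) := by
  rintro ⟨G, _, R, φ, hR, hs, hk, h1, hm⟩
  choose lf hlf using fun g : G => Quotient.exists_rep (φ (D.dirac (FreeMonoid.of g)))
  let α0 : FA G →ₐ[ℝ] FA S := MonoidAlgebra.lift ℝ _ _ (FreeMonoid.lift fun g => (lf g).1)
  have hα : ∀ x : D G, ∃ h : IsD (α0 x.1), φ x = ⟦⟨α0 x.1, h⟩⟧ := by
    intro x
    have := isD_ind (P := {x | ∃ (hx : IsD x) (h : IsD (α0 x)), φ ⟨x, hx⟩ = ⟦⟨α0 x, h⟩⟧})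
      ?_ ?_ x.2
    · exact this.2
    · rintro x ⟨hx, hx', ex⟩ y ⟨hy, hy', ey⟩ s t hs ht hst
      obtain rfl : t = 1 - s := by linarith
      have := (hm _ _ _ _ ex ey).2 ⟨s, hs, by linarith⟩
      refine ⟨isD_convex hx hy hs ht hst, ?_, ?_⟩
      · rw [map_add, map_smul, map_smul]; exact isD_convex hx' hy' hs ht hst
      · refine this.trans (congrArg _ (Subtype.ext ?_))
        simp [D.conv]
    · intro w
      refine ⟨isD_single w, ?_⟩
      induction w using FreeMonoid.inductionOn' with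
      | one =>
        have e : α0 (single 1 1) = single 1 1 := map_one α0
        refine ⟨by rw [e]; exact isD_single _, h1.trans (congrArg _ (Subtype.ext e.symm))⟩
      | of_mul g w ih =>
        obtain ⟨h, e⟩ := ih
        have e0 : (single (FreeMonoid.of g * w) 1 : FA G) =
            single (FreeMonoid.of g) 1 * single w 1 := by rw [single_mul_single, one_mul]
        have e1 : α0 (single (FreeMonoid.of g * w) 1) = (lf g).1 * α0 (single w 1) := by
          rw [e0, map_mul]; simp [α0]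
        have := (hm _ _ _ _ (hlf g).symm e).1
        refine ⟨by rw [e1]; exact isD_mul (lf g).2 h, ?_⟩
        refine (congrArg φ (Subtype.ext e0)).trans (this.trans (congrArg _ (Subtype.ext ?_)))
        exact e1.symm
  let α : FA G →ₐ[ℝ] ℝ[X] := (len S).comp α0
  have hpd : ∀ x : D G, PD (α x.1) := fun x => pd_len ⟨_, (hα x).1⟩
  have hE : ∀ x y : D G, φ x = φ y ↔ E (α x.1) (α y.1) := by
    intro x y
    obtain ⟨_, e1⟩ := hα x
    obtain ⟨_, e2⟩ := hα y
    rw [e1, e2, syn_iff a]; rfl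
  have hev : ∀ᶠ N in Filter.atTop, ∀ p ∈ R, α p.1.1 = α p.2.1 ∨ (bad N (α p.1.1) ∧ bad N (α p.2.1)) := by
    rw [Filter.eventually_all_finite hR]
    intro p hp
    exact pair (hpd _) (hpd _) ((hE _ _).1 ((hk _ _).2 fun r _ h => h p hp))
  obtain ⟨N, hN⟩ := hev.exists
  have hc : IsCong fun x y : D G => α x.1 = α y.1 ∨ (bad N (α x.1) ∧ bad N (α y.1)) := by
    refine ⟨⟨fun _ => Or.inl rfl, fun h => h.imp Eq.symm And.symm, ?_⟩, ?_, ?_⟩
    · rintro x y z (h | h) (h' | h')
      · exact Or.inl (h.trans h')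
      · exact Or.inr ⟨h ▸ h'.1, h'.2⟩
      · exact Or.inr ⟨h.1, h' ▸ h.2⟩
      · exact Or.inr ⟨h.1, h'.2⟩
    · intro x x' y y' h h'
      simp only [D.mul, map_mul]
      rcases h with h | h
      · rcases h' with h' | h'
        · exact Or.inl (by rw [h, h'])
        · exact Or.inr ⟨bad_mul (hpd _) (hpd _) (Or.inr h'.1), bad_mul (hpd _) (hpd _) (Or.inr h'.2)⟩
      · exact Or.inr ⟨bad_mul (hpd _) (hpd _) (Or.inl h.1), bad_mul (hpd _) (hpd _) (Or.inl h.2)⟩
    · rintro ⟨t, t0, t1⟩ x x' y y' h h'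
      simp only [D.conv, map_add, map_smul]
      by_cases c1 : α x.1 = α x'.1 ∨ t = 0
      · by_cases c2 : α y.1 = α y'.1 ∨ t = 1
        · left
          congr 1
          · rcases c1 with c | c <;> simp [c]
          · rcases c2 with c | c <;> simp [c]
        · push Not at c2
          have h2 := h'.resolve_left c2.1
          have h3 : 0 < 1 - t := sub_pos.2 (lt_of_le_of_ne t1 c2.2)
          right
          rw [add_comm (t • _), add_comm (t • _)]
          exact ⟨bad_conv (hpd _) h3 t0 h2.1, bad_conv (hpd _) h3 t0 h2.2⟩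
      · push Not at c1
        have h2 := h.resolve_left c1.1
        have h3 : 0 < t := lt_of_le_of_ne t0 c1.2.symm
        exact Or.inr ⟨bad_conv (hpd _) h3 (by linarith) h2.1, bad_conv (hpd _) h3 (by linarith) h2.2⟩
  obtain ⟨x, hx⟩ := hs ⟦D.dirac (FreeMonoid.of a)⟧
  have hX : α x.1 = X := by
    obtain ⟨_, e1⟩ := hα x
    rw [e1, syn_iff a] at hx
    simp only [D.dirac, len_single, FreeMonoid.length_of] at hx
    exact (extreme (hpd x) hx).trans (pow_one _)
  have hpow : ∀ k : ℕ, ∃ y : D G, α y.1 = X ^ k := by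
    intro k
    induction k with
    | zero => exact ⟨D.dirac 1, by rw [pow_zero]; exact map_one α⟩
    | succ k ih =>
      obtain ⟨y, hy⟩ := ih
      exact ⟨y.mul x, by simp only [D.mul, map_mul, hy, hX, pow_succ]⟩
  choose y hy using hpow
  set q : ℝ := (1 / 2) ^ (N + 1) with hq
  have q0 : 0 < q := by positivity
  have hS : 0 < 1 + q + q ^ 2 + q ^ 3 := by positivity
  let s : Set.Icc (0 : ℝ) 1 := ⟨q ^ 3 / (1 + q + q ^ 2 + q ^ 3), by positivity,
    by rw [div_le_one hS]; nlinarith [sq_nonneg q]⟩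
  let t : Set.Icc (0 : ℝ) 1 := ⟨(q + q ^ 2 + q ^ 3) / (1 + q + q ^ 2 + q ^ 3), by positivity,
    by rw [div_le_one hS]; linarith⟩
  have s0 : 0 < s.1 := by show 0 < q ^ 3 / _; positivity
  have e4 : (1 / 4 : ℝ) ^ (N + 1) = q ^ 2 := by
    rw [hq, ← pow_mul, mul_comm, pow_mul]; norm_num
  have hG : φ (D.conv s (y 0) (y ((N + 1) * 2))) =
      φ (D.conv t (y (N + 1)) (y ((N + 1) * 3))) := by
    rw [hE]
    simp only [E, D.conv, map_add, map_smul, hy, eval_add, eval_smul, eval_pow, eval_X,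
      smul_eq_mul, pow_mul, e4, ← hq, pow_zero, eval_one, s, t]
    constructor <;> field_simp <;> ring
  rcases (hk _ _).1 hG _ hc hN with h | ⟨⟨i, j, a1, a2, a3, a4⟩, -⟩
  · simp only [D.conv, map_add, map_smul, hy] at h
    have := congrArg (fun p => p.coeff 0) h
    simp [Polynomial.coeff_X_pow] at this
    exact s0.ne' (by simpa using this)
  · simp only [D.conv, map_add, map_smul, hy, Polynomial.coeff_add, Polynomial.coeff_smul,
      Polynomial.coeff_X_pow, smul_eq_mul] at a3 a4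
    have b1 : i = 0 ∨ i = (N + 1) * 2 := by
      by_contra hc; push Not at hc; simp [hc.1, hc.2] at a3
    have b2 : j = 0 ∨ j = (N + 1) * 2 := by
      by_contra hc; push Not at hc; simp [hc.1, hc.2] at a4
    omega

theorem result : ∀ (S : Type) [Finite S] [Nonempty S],
    PFAComputable (L0 S) ∧ ¬ SynFP (L0 S) :=
  fun S _ _ => ⟨comp S, not_fp S (Classical.arbitrary S)⟩

end Pool.Agent.Results.MP_492578_lc.NotFP
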